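import Pool.Agent.H6.GS2.Bas

set_option autoImplicit false

open Finset Pool.Agent.H6.N4D Pool.Agent.H93 Pool.Agent.H93.GS Pool.Agent.H6.GS2

namespace Pool.Agent.H50.GSW

theorem pf_BSL (hG : T_GEX) : T_BSL := by
  intro q N n r Lam γ F hq hN hL hsep
  have hqR : (0 : ℝ) < q := by exact_mod_cast (by omega : 0 < q)
  have hNR : (0 : ℝ) < N := by exact_mod_cast (by omega : 0 < N)
  obtain ⟨y, hy⟩ : ∃ y : ℕ → ℂ, ∀ i, y i = ac q N n (fun m => F m * ee (-(γ i * m))) :=
    ⟨_, fun _ => rfl⟩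
  obtain ⟨S, hS⟩ : ∃ S : ℝ, S = ∑ i ∈ range r, ‖y i‖ ^ 2 := ⟨_, rfl⟩
  have hS0 : 0 ≤ S := by rw [hS]; exact sum_nonneg fun _ _ => by positivity
  obtain ⟨K, hK⟩ : ∃ K : ℝ, K = 1 + q / N + r / (2 * Lam) := ⟨_, rfl⟩
  have hK0 : 0 ≤ K := by rw [hK]; positivity
  have hF0 : 0 ≤ ar q N n (fun m => ‖F m‖ ^ 2) := ar_nonneg q N n fun m => by positivity
  have hgoal : ∑ i ∈ range r, ‖ac q N n (fun m => F m * ee (-(γ i * m)))‖ ^ 2 = S := by
    rw [hS]; exact sum_congr rfl fun i _ => by rw [hy]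
  rw [hgoal, ← hK]
  obtain ⟨v, hv⟩ : ∃ v : Ex, v = ⟨r, y, γ⟩ := ⟨_, rfl⟩
  have hvk : v.k = r := by rw [hv]
  have hvc : v.c = y := by rw [hv]
  have hva : v.a = γ := by rw [hv]
  -- the test of F with v
  have h1 : ac q N n (fun m => F m * (starRingEnd ℂ) (v.f m)) = (S : ℂ) := by
    rw [ac_conj, hvk, hvc, hva, hS]
    push_cast
    apply sum_congr rfl
    intro i _
    rw [← hy, mul_comm, Complex.mul_conj, Complex.normSq_eq_norm_sq]
    push_cast; ring
  have h2 : S ≤ ar q N n (fun m => ‖F m‖ * ‖v.f m‖) := by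
    have h3 := norm_ac_le q N n (fun m => F m * (starRingEnd ℂ) (v.f m))
    rw [h1, Complex.norm_real, Real.norm_of_nonneg hS0] at h3
    refine h3.trans (le_of_eq ?_)
    apply ar_congr
    intro m _ _
    rw [norm_mul, Complex.norm_conj]
  -- Cauchy and Schwarz
  have h4 : (ar q N n (fun m => ‖F m‖ * ‖v.f m‖)) ^ 2 ≤
      ar q N n (fun m => ‖F m‖ ^ 2) * ar q N n (fun m => ‖v.f m‖ ^ 2) := by
    unfold ar
    have h5 := Finset.sum_mul_sq_le_sq_mul_sq ((Ioc n (n + N)).filter (fun m => q ∣ m))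
      (fun m => ‖F m‖) (fun m => ‖v.f m‖)
    have h6 : 0 ≤ ((q : ℝ) / N) ^ 2 := by positivity
    have h7 := mul_le_mul_of_nonneg_right h5 h6
    calc _ = (∑ i ∈ (Ioc n (n + N)).filter (fun m => q ∣ m), ‖F i‖ * ‖v.f i‖) ^ 2 *
          ((q : ℝ) / N) ^ 2 := by ring
      _ ≤ _ := h7
      _ = _ := by ring
  -- the mean square of v
  have h8 : ar q N n (fun m => ‖v.f m‖ ^ 2) ≤ K * S := by
    have h9 : ar q N n (fun m => ‖v.f m‖ ^ 2) =
        ‖ac q N n (fun m => v.f m * (starRingEnd ℂ) (v.f m))‖ := by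
      have h10 : ac q N n (fun m => v.f m * (starRingEnd ℂ) (v.f m)) =
          ((ar q N n (fun m => ‖v.f m‖ ^ 2) : ℝ) : ℂ) := by
        unfold ac ar
        push_cast
        congr 3
        funext m
        rw [Complex.mul_conj, Complex.normSq_eq_norm_sq]
        push_cast; ring
      rw [h10, Complex.norm_real, Real.norm_of_nonneg (ar_nonneg q N n fun m => by positivity)]
    rw [h9, ac_conj, hvk, hvc, hva]
    have h11 : ∀ l ∈ range r, ac q N n (fun m => v.f m * ee (-(γ l * m))) =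
        ∑ i ∈ range r, y i * ac q N n (fun m => ee ((γ i - γ l) * m)) := by
      intro l _
      have h12 : (fun m : ℕ => v.f m * ee (-(γ l * m))) =
          fun m : ℕ => ∑ i ∈ range r, y i * ee ((γ i - γ l) * m) := by
        funext m
        unfold Ex.f
        rw [hvk, hvc, hva, sum_mul]
        apply sum_congr rfl
        intro i _
        rw [mul_assoc, ← ee_add]
        congr 2; ring
      rw [h12, ac_sum]
      exact sum_congr rfl fun i _ => by rw [ac_mul]
    have h13 : ∀ l ∈ range r, ∀ i ∈ range r,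
        ‖ac q N n (fun m => ee ((γ i - γ l) * m))‖ ≤
          (if i = l then 1 + (q : ℝ) / N else 0) + 1 / (2 * Lam) := by
      intro l hl i hi
      by_cases hil : i = l
      · rw [if_pos hil, hil]
        have h14 : ac q N n (fun m => ee ((γ l - γ l) * m)) = ac q N n (fun _ => 1) := by
          apply ac_congr
          intro m _ _
          rw [sub_self, zero_mul, EB.ee_zero]
        rw [h14]
        have h15 := norm_ac_le q N n (fun _ => 1)
        have h16 : ar q N n (fun _ => ‖(1 : ℂ)‖) ≤ 1 + q / N := by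
          simp only [norm_one]
          exact ar_one_le q N n hq hN
        have h17 : 0 ≤ 1 / (2 * Lam) := by positivity
        linarith
      · rw [if_neg hil, zero_add]
        have h14 := hsep i (mem_range.mp hi) l (mem_range.mp hl) hil
        have h15 : 0 < Lam * q / N := by positivity
        have h16 := hG q N n (γ i - γ l) hq hN (lt_of_lt_of_le h15 h14)
        refine h16.trans ?_
        have hnd := lt_of_lt_of_le h15 h14
        rw [div_le_div_iff₀ (mul_pos (by positivity) hnd) (by positivity)]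
        have h17 : (q : ℝ) * Lam ≤ N * nd (q * (γ i - γ l)) := by
          rw [div_le_iff₀ hNR] at h14
          linarith
        nlinarith
    have h18 : ‖∑ l ∈ range r, (starRingEnd ℂ) (y l) *
        ac q N n (fun m => v.f m * ee (-(γ l * m)))‖ ≤
        ∑ l ∈ range r, ∑ i ∈ range r, ‖y l‖ * ‖y i‖ *
          ((if i = l then 1 + (q : ℝ) / N else 0) + 1 / (2 * Lam)) := by
      refine (norm_sum_le _ _).trans (sum_le_sum fun l hl => ?_)
      rw [h11 l hl, norm_mul, Complex.norm_conj]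
      calc ‖y l‖ * ‖∑ i ∈ range r, y i * ac q N n (fun m => ee ((γ i - γ l) * m))‖
          ≤ ‖y l‖ * ∑ i ∈ range r, ‖y i‖ *
            ((if i = l then 1 + (q : ℝ) / N else 0) + 1 / (2 * Lam)) := by
            apply mul_le_mul_of_nonneg_left _ (norm_nonneg _)
            refine (norm_sum_le _ _).trans (sum_le_sum fun i hi => ?_)
            rw [norm_mul]
            exact mul_le_mul_of_nonneg_left (h13 l hl i hi) (norm_nonneg _)
        _ = _ := by
            rw [mul_sum]
            exact sum_congr rfl fun i _ => by ring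
    refine h18.trans ?_
    have h19 : ∑ l ∈ range r, ∑ i ∈ range r, ‖y l‖ * ‖y i‖ *
          ((if i = l then 1 + (q : ℝ) / N else 0) + 1 / (2 * Lam)) =
        (1 + q / N) * S + 1 / (2 * Lam) * (∑ i ∈ range r, ‖y i‖) ^ 2 := by
      have h20 : ∀ l ∈ range r, ∑ i ∈ range r, ‖y l‖ * ‖y i‖ *
          ((if i = l then 1 + (q : ℝ) / N else 0) + 1 / (2 * Lam)) =
          (1 + (q : ℝ) / N) * ‖y l‖ ^ 2 +
            1 / (2 * Lam) * (‖y l‖ * ∑ i ∈ range r, ‖y i‖) := by
        intro l hl
        have h21 : ∀ i ∈ range r, ‖y l‖ * ‖y i‖ *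
          ((if i = l then 1 + (q : ℝ) / N else 0) + 1 / (2 * Lam)) =
          (if i = l then (1 + (q : ℝ) / N) * ‖y l‖ ^ 2 else 0) +
            1 / (2 * Lam) * (‖y l‖ * ‖y i‖) := by
          intro i _
          by_cases hil : i = l
          · rw [if_pos hil, if_pos hil, hil]; ring
          · rw [if_neg hil, if_neg hil]; ring
        rw [sum_congr rfl h21, sum_add_distrib, Finset.sum_ite_eq', if_pos hl, ← mul_sum,
          ← mul_sum]
      rw [sum_congr rfl h20, sum_add_distrib, ← mul_sum, ← mul_sum, ← sum_mul, hS]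
      ring
    rw [h19]
    have h22 : (∑ i ∈ range r, ‖y i‖) ^ 2 ≤ r * S := by
      have h23 := Finset.sum_mul_sq_le_sq_mul_sq (range r) (fun _ => (1 : ℝ)) (fun i => ‖y i‖)
      simp only [one_mul, one_pow, sum_const, card_range, nsmul_eq_mul, mul_one] at h23
      rw [hS]; exact h23
    have h24 : 1 / (2 * Lam) * (∑ i ∈ range r, ‖y i‖) ^ 2 ≤ 1 / (2 * Lam) * (r * S) :=
      mul_le_mul_of_nonneg_left h22 (by positivity)
    calc _ ≤ (1 + q / N) * S + 1 / (2 * Lam) * (r * S) := by linarith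
      _ = K * S := by rw [hK]; ring
  -- the end
  have h25 : S ^ 2 ≤ ar q N n (fun m => ‖F m‖ ^ 2) * (K * S) := by
    calc S ^ 2 ≤ (ar q N n (fun m => ‖F m‖ * ‖v.f m‖)) ^ 2 := pow_le_pow_left₀ hS0 h2 2
      _ ≤ _ := h4
      _ ≤ _ := mul_le_mul_of_nonneg_left h8 hF0
  rcases hS0.eq_or_lt with h26 | h26
  · rw [← h26]; exact mul_nonneg hK0 hF0
  · have h27 : S * S ≤ (K * ar q N n (fun m => ‖F m‖ ^ 2)) * S := by
      calc S * S = S ^ 2 := by ring
        _ ≤ _ := h25
        _ = _ := by ring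
    exact le_of_mul_le_mul_right h27 h26

end Pool.Agent.H50.GSW
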