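import Pool.Agent.H6.GS2.Bas

set_option autoImplicit false

open Finset Pool.Agent.H6.N4D Pool.Agent.H93 Pool.Agent.H93.GS Pool.Agent.H6.GS2

namespace Pool.Agent.H50.GSW

lemma dqg_trv (q N n : ℕ) (γ : ℝ) (hq : 1 ≤ q) (hqN : q ≤ N) :
    ‖ac 1 N n (fun x => (EB.D q x : ℂ) * ee (γ * x))‖ ≤ 3 := by
  have hNR : (0 : ℝ) < N := by exact_mod_cast (by omega : 0 < N)
  have h1 := norm_ac_le 1 N n (fun x => (EB.D q x : ℂ) * ee (γ * x))
  have h2 : ar 1 N n (fun x => ‖(EB.D q x : ℂ) * ee (γ * x)‖) ≤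
      ar 1 N n (fun x => (if q ∣ x then (q : ℝ) else 0) + 1) := by
    apply ar_mono
    intro x _ _
    rw [norm_mul, norm_ee, mul_one, Complex.norm_real, Real.norm_eq_abs]
    unfold EB.D
    have h3 : (0 : ℝ) ≤ if q ∣ x then (q : ℝ) else 0 := by
      split_ifs
      · exact Nat.cast_nonneg _
      · exact le_rfl
    rw [abs_le]
    constructor <;> linarith
  have h4 : ar 1 N n (fun x => (if q ∣ x then (q : ℝ) else 0) + 1) =
      ar 1 N n (fun x => if q ∣ x then (q : ℝ) else 0) + ar 1 N n (fun _ => 1) :=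
    ar_add 1 N n _ _
  have h5 : ar 1 N n (fun x => if q ∣ x then (q : ℝ) else 0) ≤ (N + q) / N := by
    unfold ar
    have h6 : (Ioc n (n + N)).filter (fun m => 1 ∣ m) = Ioc n (n + N) :=
      filter_true_of_mem fun m _ => one_dvd m
    rw [h6, ← sum_filter, sum_const, nsmul_eq_mul]
    have h7 := card_mul_le q N n hq
    push_cast
    rw [mul_one]
    exact div_le_div_of_nonneg_right h7 hNR.le
  have h8 : ar 1 N n (fun _ => 1) ≤ 1 := by
    unfold ar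
    have h6 : (Ioc n (n + N)).filter (fun m => 1 ∣ m) = Ioc n (n + N) :=
      filter_true_of_mem fun m _ => one_dvd m
    rw [h6, sum_const, nsmul_eq_mul]
    simp only [Nat.card_Ioc, Nat.cast_one, mul_one]
    rw [show n + N - n = N by omega, div_self hNR.ne']
  have h9 : ((N : ℝ) + q) / N ≤ 2 := by
    rw [div_le_iff₀ hNR]
    have : (q : ℝ) ≤ N := by exact_mod_cast hqN
    linarith
  linarith

lemma dqg_nd (z : ℤ) (Q : ℕ) (hQ : 1 ≤ Q) (hz : ¬ (Q : ℤ) ∣ z) :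
    1 / (Q : ℝ) ≤ nd ((z : ℝ) / Q) := by
  have hQR : (0 : ℝ) < Q := by exact_mod_cast (by omega : 0 < Q)
  obtain ⟨k, hk⟩ := exists_int ((z : ℝ) / Q)
  rw [← hk]
  have h1 : (z : ℝ) / Q - k = ((z - k * Q : ℤ) : ℝ) / Q := by
    push_cast; field_simp
  rw [h1, abs_div, abs_of_pos hQR]
  apply div_le_div_of_nonneg_right _ hQR.le
  have h2 : z - k * Q ≠ 0 := by
    intro h3
    exact hz ⟨k, by linarith⟩
  have h3 : (1 : ℤ) ≤ |z - k * Q| := Int.one_le_abs h2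
  exact_mod_cast h3

/-- the exceptional primes -/
def Exq (γ : ℝ) (m q : ℕ) : Prop :=
  ∃ b : ℤ, ¬ (q : ℤ) ∣ b ∧ nd (γ - (b : ℝ) / q) < (2 : ℝ) ^ (m / 4) / ((2 ^ m : ℕ) : ℝ)

lemma dqg_mem {m q : ℕ} (hq : q ∈ EB.QQ m) : q.Prime ∧ 2 ^ (m / 400) < q ∧ q ≤ 2 ^ (m / 200) := by
  unfold EB.QQ at hq
  rw [mem_filter, mem_Ioc] at hq
  exact ⟨hq.2, hq.1.1, hq.1.2⟩

lemma dqg_uni (γ : ℝ) (m q q' : ℕ) (hm : 10000 ≤ m) (hq : q ∈ EB.QQ m) (hq' : q' ∈ EB.QQ m)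
    (h : Exq γ m q) (h' : Exq γ m q') : q = q' := by
  by_contra hne
  obtain ⟨p1, -, p3⟩ := dqg_mem hq
  obtain ⟨p1', -, p3'⟩ := dqg_mem hq'
  obtain ⟨b, hb, hbn⟩ := h
  obtain ⟨b', hb', hbn'⟩ := h'
  have hqR : (0 : ℝ) < q := by exact_mod_cast p1.pos
  have hqR' : (0 : ℝ) < q' := by exact_mod_cast p1'.pos
  have h1 : ¬ ((q * q' : ℕ) : ℤ) ∣ (b * q' - b' * q) := by
    intro h2
    have h3 : (q : ℤ) ∣ b * q' - b' * q := by
      refine dvd_trans ?_ h2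
      push_cast
      exact dvd_mul_right _ _
    have h4 : (q : ℤ) ∣ b * q' := by
      have h5 : (q : ℤ) ∣ b' * q := dvd_mul_left _ _
      have h6 := dvd_add h3 h5
      have h7 : b * q' - b' * q + b' * q = b * q' := by ring
      rwa [h7] at h6
    rcases (Nat.prime_iff_prime_int.mp p1).dvd_or_dvd h4 with h5 | h5
    · exact hb h5
    · have h6 : q ∣ q' := by exact_mod_cast h5
      exact hne ((Nat.prime_dvd_prime_iff_eq p1 p1').mp h6)
  have h2 := dqg_nd _ (q * q') (Nat.mul_pos p1.pos p1'.pos) h1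
  have h3 : ((b * q' - b' * q : ℤ) : ℝ) / ((q * q' : ℕ) : ℝ) =
      (γ - (b' : ℝ) / q') - (γ - (b : ℝ) / q) := by
    push_cast
    field_simp
    ring
  rw [h3] at h2
  have h4 := nd_sub_le (γ - (b' : ℝ) / q') (γ - (b : ℝ) / q)
  have h5 : 1 / ((q * q' : ℕ) : ℝ) < 2 * ((2 : ℝ) ^ (m / 4) / ((2 ^ m : ℕ) : ℝ)) := by linarith
  have hNR : (0 : ℝ) < ((2 ^ m : ℕ) : ℝ) := by positivity
  have hQQ : (0 : ℝ) < ((q * q' : ℕ) : ℝ) := by push_cast; positivity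
  have h6 : ((2 ^ m : ℕ) : ℝ) < 2 * (2 : ℝ) ^ (m / 4) * ((q * q' : ℕ) : ℝ) := by
    rw [div_lt_iff₀ hQQ, ← mul_div_assoc, div_mul_eq_mul_div, lt_div_iff₀ hNR] at h5
    linarith
  have h7 : 2 ^ m < 2 * 2 ^ (m / 4) * (q * q') := by exact_mod_cast h6
  have h8 : q * q' ≤ 2 ^ (m / 200) * 2 ^ (m / 200) := Nat.mul_le_mul p3 p3'
  have h9 : 2 * 2 ^ (m / 4) * (q * q') ≤ 2 ^ (1 + m / 4 + (m / 200 + m / 200)) := by
    calc 2 * 2 ^ (m / 4) * (q * q') ≤ 2 * 2 ^ (m / 4) * (2 ^ (m / 200) * 2 ^ (m / 200)) :=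
          Nat.mul_le_mul_left _ h8
      _ = _ := by rw [pow_add, pow_add, pow_add]; ring
  have h10 : 2 ^ (1 + m / 4 + (m / 200 + m / 200)) ≤ 2 ^ m :=
    Nat.pow_le_pow_right (by norm_num) (by omega)
  omega

open Classical in
lemma dqg_one (hK : T_KER) (γ : ℝ) (m n : ℕ) (hm : 10000 ≤ m) :
    ∑ q ∈ EB.QQ m, 1 / (q : ℝ) *
      ‖ac 1 (2 ^ m) n (fun x => (EB.D q x : ℂ) * ee (γ * x))‖ ≤ (1 / 2) ^ (m / 1000) := by
  have hz : (0 : ℝ) < (2 : ℝ) ^ (m / 4) := by positivity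
  have hterm : ∀ q ∈ EB.QQ m, 1 / (q : ℝ) *
      ‖ac 1 (2 ^ m) n (fun x => (EB.D q x : ℂ) * ee (γ * x))‖ ≤
      1 / (2 * (2 : ℝ) ^ (m / 4)) + if Exq γ m q then 3 / (2 : ℝ) ^ (m / 400) else 0 := by
    intro q hq
    obtain ⟨p1, p2, p3⟩ := dqg_mem hq
    have hqR : (0 : ℝ) < q := by exact_mod_cast p1.pos
    have hqN : q ≤ 2 ^ m := p3.trans (Nat.pow_le_pow_right (by norm_num) (by omega))
    by_cases he : Exq γ m q
    · rw [if_pos he]
      have h1 := dqg_trv q (2 ^ m) n γ p1.one_lt.le hqN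
      have h2 : 1 / (q : ℝ) * ‖ac 1 (2 ^ m) n (fun x => (EB.D q x : ℂ) * ee (γ * x))‖ ≤
          1 / (q : ℝ) * 3 := mul_le_mul_of_nonneg_left h1 (by positivity)
      have h3 : 1 / (q : ℝ) * 3 ≤ 3 / (2 : ℝ) ^ (m / 400) := by
        rw [one_div_mul_eq_div]
        apply div_le_div_of_nonneg_left (by norm_num) (by positivity)
        exact_mod_cast p2.le
      have h4 : (0 : ℝ) ≤ 1 / (2 * (2 : ℝ) ^ (m / 4)) := by positivity
      linarith
    · rw [if_neg he, add_zero]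
      have h1 := (hK q (2 ^ m) n γ p1.one_lt.le hqN).2.2 ((2 : ℝ) ^ (m / 4)) hz (by
        intro b hb
        by_contra hcon
        push Not at hcon
        exact he ⟨b, hb, hcon⟩)
      calc 1 / (q : ℝ) * ‖ac 1 (2 ^ m) n (fun x => (EB.D q x : ℂ) * ee (γ * x))‖
          ≤ 1 / (q : ℝ) * (q / (2 * (2 : ℝ) ^ (m / 4))) :=
            mul_le_mul_of_nonneg_left h1 (by positivity)
        _ = 1 / (2 * (2 : ℝ) ^ (m / 4)) := by field_simp
  have hsum := sum_le_sum hterm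
  rw [sum_add_distrib, sum_const, nsmul_eq_mul] at hsum
  have hcard : ((EB.QQ m).card : ℝ) ≤ (2 : ℝ) ^ (m / 200) := by
    have h1 : (EB.QQ m).card ≤ 2 ^ (m / 200) := by
      unfold EB.QQ
      refine (card_filter_le _ _).trans ?_
      rw [Nat.card_Ioc]
      exact Nat.sub_le _ _
    exact_mod_cast h1
  have hex : ∑ q ∈ EB.QQ m, (if Exq γ m q then 3 / (2 : ℝ) ^ (m / 400) else 0) ≤
      3 / (2 : ℝ) ^ (m / 400) := by
    by_cases h1 : ∃ q ∈ EB.QQ m, Exq γ m q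
    · obtain ⟨q0, hq0, he0⟩ := h1
      rw [sum_eq_single_of_mem q0 hq0, if_pos he0]
      intro q hq hne
      rw [if_neg]
      intro he
      exact hne (dqg_uni γ m q q0 hm hq hq0 he he0)
    · push Not at h1
      rw [sum_congr rfl fun q hq => if_neg (h1 q hq), sum_const_zero]
      positivity
  have h1 : ((EB.QQ m).card : ℝ) * (1 / (2 * (2 : ℝ) ^ (m / 4))) ≤
      1 / 2 * (1 / 2) ^ (m / 1000) := by
    have h2 : (2 : ℝ) ^ (m / 200) * (2 : ℝ) ^ (m / 1000) ≤ (2 : ℝ) ^ (m / 4) := by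
      rw [← pow_add]
      exact pow_le_pow_right₀ (by norm_num) (by omega)
    calc ((EB.QQ m).card : ℝ) * (1 / (2 * (2 : ℝ) ^ (m / 4)))
        ≤ (2 : ℝ) ^ (m / 200) * (1 / (2 * (2 : ℝ) ^ (m / 4))) :=
          mul_le_mul_of_nonneg_right hcard (by positivity)
      _ ≤ 1 / 2 * (1 / 2) ^ (m / 1000) := by
          rw [one_div_pow, ← mul_div_assoc, mul_one, ← mul_div_assoc, mul_one,
            div_le_div_iff₀ (by positivity) (by positivity)]
          nlinarith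
  have h3 : 3 / (2 : ℝ) ^ (m / 400) ≤ 1 / 2 * (1 / 2) ^ (m / 1000) := by
    have h4 : (2 : ℝ) ^ (m / 1000) * 8 ≤ (2 : ℝ) ^ (m / 400) := by
      have h5 : (2 : ℝ) ^ (m / 1000) * 8 = (2 : ℝ) ^ (m / 1000 + 3) := by
        rw [pow_add]; norm_num
      rw [h5]
      exact pow_le_pow_right₀ (by norm_num) (by omega)
    rw [one_div_pow, ← mul_div_assoc, mul_one, div_le_div_iff₀ (by positivity) (by positivity)]
    have h6 : (0 : ℝ) < (2 : ℝ) ^ (m / 1000) := by positivity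
    nlinarith
  linarith

theorem pf_DQG (hK : T_KER) : T_DQG := by
  refine ⟨10000, fun m n g h hm => ?_⟩
  have hexp : ∀ q ∈ EB.QQ m, 1 / (q : ℝ) *
      ‖ac 1 (2 ^ m) n (fun x => (EB.D q x : ℂ) * g.f x * (starRingEnd ℂ) (h.f x))‖ ≤
      ∑ l ∈ range h.k, ∑ i ∈ range g.k, ‖h.c l‖ * ‖g.c i‖ *
        (1 / (q : ℝ) * ‖ac 1 (2 ^ m) n (fun x => (EB.D q x : ℂ) *
          ee ((g.a i - h.a l) * x))‖) := by
    intro q _
    rw [ac_conj]
    have h1 : ‖∑ l ∈ range h.k, (starRingEnd ℂ) (h.c l) *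
        ac 1 (2 ^ m) n (fun x => (EB.D q x : ℂ) * g.f x * ee (-(h.a l * x)))‖ ≤
        ∑ l ∈ range h.k, ‖h.c l‖ * ∑ i ∈ range g.k, ‖g.c i‖ *
          ‖ac 1 (2 ^ m) n (fun x => (EB.D q x : ℂ) * ee ((g.a i - h.a l) * x))‖ := by
      refine (norm_sum_le _ _).trans (sum_le_sum fun l _ => ?_)
      rw [norm_mul, Complex.norm_conj]
      apply mul_le_mul_of_nonneg_left _ (norm_nonneg _)
      have h2 : (fun x : ℕ => (EB.D q x : ℂ) * g.f x * ee (-(h.a l * x))) =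
          fun x : ℕ => ∑ i ∈ range g.k, g.c i *
            ((EB.D q x : ℂ) * ee ((g.a i - h.a l) * x)) := by
        funext x
        unfold Ex.f
        rw [mul_sum, sum_mul]
        apply sum_congr rfl
        intro i _
        have h3 : ee ((g.a i - h.a l) * x) = ee (g.a i * x) * ee (-(h.a l * x)) := by
          rw [← ee_add]; congr 1; ring
        rw [h3]; ring
      rw [h2, ac_sum]
      refine (norm_sum_le _ _).trans (le_of_eq ?_)
      exact sum_congr rfl fun i _ => by rw [ac_mul, norm_mul]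
    calc _ ≤ 1 / (q : ℝ) * ∑ l ∈ range h.k, ‖h.c l‖ * ∑ i ∈ range g.k, ‖g.c i‖ *
          ‖ac 1 (2 ^ m) n (fun x => (EB.D q x : ℂ) * ee ((g.a i - h.a l) * x))‖ :=
          mul_le_mul_of_nonneg_left h1 (by positivity)
      _ = _ := by
          rw [mul_sum]
          apply sum_congr rfl
          intro l _
          rw [mul_left_comm, mul_sum, mul_sum]
          exact sum_congr rfl fun i _ => by ring
  refine (sum_le_sum hexp).trans ?_
  rw [sum_comm]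
  have h2 : ∀ l ∈ range h.k, ∑ q ∈ EB.QQ m, ∑ i ∈ range g.k, ‖h.c l‖ * ‖g.c i‖ *
      (1 / (q : ℝ) * ‖ac 1 (2 ^ m) n (fun x => (EB.D q x : ℂ) *
        ee ((g.a i - h.a l) * x))‖) ≤
      ∑ i ∈ range g.k, ‖h.c l‖ * ‖g.c i‖ * (1 / 2) ^ (m / 1000) := by
    intro l _
    rw [sum_comm]
    apply sum_le_sum
    intro i _
    rw [← mul_sum]
    exact mul_le_mul_of_nonneg_left (dqg_one hK _ m n hm) (by positivity)
  refine (sum_le_sum h2).trans (le_of_eq ?_)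
  unfold Ex.nm
  rw [mul_comm (∑ i ∈ range g.k, ‖g.c i‖), sum_mul, sum_mul]
  apply sum_congr rfl
  intro l _
  rw [← sum_mul, mul_sum]

end Pool.Agent.H50.GSW
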