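import Pool.Agent.H6.GS2.Bas

set_option autoImplicit false

open Finset Pool.Agent.H6.N4D Pool.Agent.H93 Pool.Agent.H93.GS Pool.Agent.H6.GS2

namespace Pool.Agent.H50.GSW

theorem pf_UNQ : T_UNQ := by
  intro th lam q N n g h hq hN hg hh m hm hqm
  have h1 := J_exp hg h
  rw [hh.mx] at h1
  have h2 := slk_nonneg hg h
  have h3 : 0 ≤ d2 q N n h g := by
    unfold d2
    exact ar_nonneg q N n fun m => by positivity
  have h4 : d2 q N n h g = 0 := by linarith
  unfold d2 ar at h4
  have hqR : (q : ℝ) ≠ 0 := by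
    have : q ≠ 0 := by omega
    exact_mod_cast this
  have hNR : (N : ℝ) ≠ 0 := by
    have : N ≠ 0 := by omega
    exact_mod_cast this
  have h5 : ∑ m ∈ (Ioc n (n + N)).filter (fun m => q ∣ m), ‖h.f m - g.f m‖ ^ 2 = 0 := by
    rw [div_eq_zero_iff] at h4
    rcases h4 with h4 | h4
    · rcases mul_eq_zero.mp h4 with h4 | h4
      · exact h4
      · exact absurd h4 hqR
    · exact absurd h4 hNR
  rw [Finset.sum_eq_zero_iff_of_nonneg (fun _ _ => by positivity)] at h5
  have h6 := h5 m (mem_filter.mpr ⟨hm, hqm⟩)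
  have h7 : ‖h.f m - g.f m‖ = 0 := by
    rwa [sq_eq_zero_iff] at h6
  rw [norm_eq_zero, sub_eq_zero] at h7
  exact h7.symm

end Pool.Agent.H50.GSW
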